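import Pool.Agent.TH877.UF.Chr

set_option autoImplicit false

/-! # Real quadratic fields with three ramified primes have even class number (helper877) -/

namespace Pool.Agent.TH877.UF

open NumberField Module H419R2

theorem exists_l {d : ℕ} (hd : Squarefree d) (h3 : 3 ≤ d.primeFactors.card) :
    ∃ l : ℕ, l.Prime ∧ l ≠ 2 ∧ ¬ l ∣ d ∧ jacobiSym d l = 1 ∧ Bad d l := by
  have hd0 : d ≠ 0 := hd.ne_zero
  have hprod : ∏ p ∈ d.primeFactors, p = d := Nat.prod_primeFactors_of_squarefree hd
  have hmem : ∀ q ∈ d.primeFactors, q.Prime ∧ q ∣ d := fun q hq =>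
    ⟨Nat.prime_of_mem_primeFactors hq, Nat.dvd_of_mem_primeFactors hq⟩
  -- splitting off two primes
  have split : ∀ q p : ℕ, q ∈ d.primeFactors → p ∈ d.primeFactors → q ≠ p →
      ∃ m : ℕ, d = q * p * m ∧ 0 < m ∧ m.Coprime q ∧ m.Coprime p := by
    intro q p hq hp hqp
    have hqP := (hmem q hq).1
    have hpP := (hmem p hp).1
    have hdv : q * p ∣ d :=
      Nat.Coprime.mul_dvd_of_dvd_of_dvd ((Nat.coprime_primes hqP hpP).2 hqp) (hmem q hq).2
        (hmem p hp).2
    obtain ⟨m, hm⟩ := hdv
    have hsq : Squarefree (q * p * m) := by rw [← hm]; exact hd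
    have hcop : (q * p).Coprime m := Nat.coprime_of_squarefree_mul hsq
    refine ⟨m, hm, ?_, ?_, ?_⟩
    · rcases Nat.eq_zero_or_pos m with h | h
      · rw [h, mul_zero] at hm; exact absurd hm hd0
      · exact h
    · exact (Nat.Coprime.coprime_mul_right hcop).symm
    · exact (Nat.Coprime.coprime_mul_left hcop).symm
  have hS : 2 ≤ (d.primeFactors.erase 2).card := by
    have := Finset.pred_card_le_card_erase (s := d.primeFactors) (a := 2)
    omega
  by_cases hA : ∃ q ∈ d.primeFactors.erase 2, q % 4 = 1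
  · obtain ⟨q, hq, hq4⟩ := hA
    obtain ⟨p, hp, hpq⟩ := Finset.exists_mem_ne (by omega : 1 < (d.primeFactors.erase 2).card) q
    have hq' := Finset.mem_of_mem_erase hq
    have hp' := Finset.mem_of_mem_erase hp
    obtain ⟨m, hm, hm0, hmq, hmp⟩ := split q p hq' hp' (Ne.symm hpq)
    obtain ⟨l, hl, hl2, hld, hJ, hJq, -⟩ := choose_l hm hm0 (hmem q hq').1 (hmem p hp').1
      (Ne.symm hpq) (Finset.ne_of_mem_erase hq) (Finset.ne_of_mem_erase hp) hmq hmp
    exact ⟨l, hl, hl2, hld, hJ, Or.inl ⟨q, (hmem q hq').1, by exact_mod_cast (hmem q hq').2, hq4,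
      hJq⟩⟩
  · push Not at hA
    have h34 : ∀ q ∈ d.primeFactors.erase 2, q % 4 = 3 := by
      intro q hq
      have hodd : q % 2 = 1 := by
        rcases (hmem q (Finset.mem_of_mem_erase hq)).1.eq_two_or_odd with h | h
        · exact absurd h (Finset.ne_of_mem_erase hq)
        · exact h
      have := hA q hq
      omega
    by_cases hc : 3 ≤ (d.primeFactors.erase 2).card
    · obtain ⟨q, r, p, hq, hr, hp, hqr, hqp, hrp⟩ := Finset.two_lt_card_iff.1 (by omega : 2 < (d.primeFactors.erase 2).card)
      have hq' := Finset.mem_of_mem_erase hq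
      have hp' := Finset.mem_of_mem_erase hp
      have hr' := Finset.mem_of_mem_erase hr
      obtain ⟨m, hm, hm0, hmq, hmp⟩ := split q p hq' hp' hqp
      obtain ⟨l, hl, hl2, hld, hJ, hJq, hJr⟩ := choose_l hm hm0 (hmem q hq').1 (hmem p hp').1
        hqp (Finset.ne_of_mem_erase hq) (Finset.ne_of_mem_erase hp) hmq hmp
      have hrm : r ∣ m := by
        have h1 : r ∣ q * p * m := by rw [← hm]; exact (hmem r hr').2
        have hrP := (hmem r hr').1
        rcases (Nat.Prime.dvd_mul hrP).1 h1 with h | h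
        · rcases (Nat.Prime.dvd_mul hrP).1 h with h | h
          · exact absurd ((Nat.prime_dvd_prime_iff_eq hrP (hmem q hq').1).1 h) (Ne.symm hqr)
          · exact absurd ((Nat.prime_dvd_prime_iff_eq hrP (hmem p hp').1).1 h) hrp
        · exact h
      exact ⟨l, hl, hl2, hld, hJ, Or.inr ⟨q, r, (hmem q hq').1, (hmem r hr').1,
        by exact_mod_cast (hmem q hq').2, by exact_mod_cast (hmem r hr').2, h34 q hq, h34 r hr,
        hJq, hJr r hrm⟩⟩
    · have h2mem : 2 ∈ d.primeFactors := by
        by_contra h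
        rw [Finset.erase_eq_of_notMem h] at hc
        omega
      have hcard : (d.primeFactors.erase 2).card = 2 := by omega
      obtain ⟨q, p, hqp, hqp'⟩ := Finset.card_eq_two.1 hcard
      have hq : q ∈ d.primeFactors.erase 2 := by rw [hqp']; simp
      have hp : p ∈ d.primeFactors.erase 2 := by rw [hqp']; simp
      have hq' := Finset.mem_of_mem_erase hq
      have hp' := Finset.mem_of_mem_erase hp
      have hdd : d = 2 * (q * p) := by
        rw [← hprod, ← Finset.mul_prod_erase _ _ h2mem, hqp', Finset.prod_pair hqp]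
      obtain ⟨l, hl, hl2, hld, hJ, hJq, hJp⟩ := choose_l2 (hmem q hq').1 (hmem p hp').1 hqp
        (Finset.ne_of_mem_erase hq) (Finset.ne_of_mem_erase hp)
      refine ⟨l, hl, hl2, by rw [hdd]; exact hld, by rw [hdd]; exact hJ, Or.inr ⟨q, p,
        (hmem q hq').1, (hmem p hp').1, by exact_mod_cast (hmem q hq').2,
        by exact_mod_cast (hmem p hp').2, h34 q hq, h34 p hp, hJq, hJp⟩⟩

/-- The class number of a real quadratic field with three prime radicand factors is even. -/
theorem even_classNumber {K : Type*} [Field K] [NumberField K] {d : ℕ} (hd : Squarefree d)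
    (h3 : 3 ≤ d.primeFactors.card) (hK : finrank ℚ K = 2) {x : K} (hx : x ^ 2 = (d : K)) :
    Even (classNumber K) := by
  obtain ⟨l, hl, hl2, hld, hJ, hbad⟩ := exists_l hd h3
  have h1 : 1 < d := by
    by_contra h
    have : d = 0 ∨ d = 1 := by omega
    rcases this with rfl | rfl <;> simp at h3
  have hDs : Squarefree (d : ℤ) := Int.squarefree_natCast.2 hd
  exact even_class hDs (by exact_mod_cast h1) hK (by rw [hx]; simp) hl hl2
    (by exact_mod_cast hld) hJ hbad

theorem not_ufd {K : Type*} [Field K] [NumberField K] {d : ℕ} (hd : Squarefree d)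
    (h3 : 3 ≤ d.primeFactorsList.length) (hK : finrank ℚ K = 2) {x : K} (hx : x ^ 2 = (d : K)) :
    Even (classNumber K) ∧ ¬ UniqueFactorizationMonoid (𝓞 K) := by
  have h3' : 3 ≤ d.primeFactors.card := by
    rw [Nat.primeFactors, List.toFinset_card_of_nodup]
    · exact h3
    · exact (Nat.squarefree_iff_nodup_primeFactorsList hd.ne_zero).1 hd
  have hev := even_classNumber hd h3' hK hx
  refine ⟨hev, fun hU => ?_⟩
  haveI := IsPrincipalIdealRing.of_isDedekindDomain_of_uniqueFactorizationMonoid (𝓞 K)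
  have h1 : classNumber K = 1 := NumberField.classNumber_eq_one_iff.2 inferInstance
  rw [h1] at hev
  exact absurd hev (by decide)

end Pool.Agent.TH877.UF
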