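import Pool.Agent.TH877.UF.Idl

set_option autoImplicit false

/-! # Genus characters: even class number with three ramified primes (helper877) -/

namespace Pool.Agent.TH877.UF

open NumberField Module H419R2

theorem sym_of_form {D : ℤ} {l q h : ℕ} (hl : l.Prime) (hq : q.Prime) (hq2 : q ≠ 2) (hlq : l ≠ q)
    (hqD : (q : ℤ) ∣ D) (hh : Odd h) {a c e : ℤ} (he : e = 1 ∨ e = -1)
    (hac : a ^ 2 - D * c ^ 2 = 4 * (e * (l : ℤ) ^ h)) :
    jacobiSym e q * jacobiSym l q = 1 := by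
  haveI := Fact.mk hq
  have hcop : IsCoprime (l : ℤ) (q : ℤ) := by
    rw [Nat.isCoprime_iff_coprime]
    exact (Nat.coprime_primes hl hq).2 hlq
  have hlg : ((l : ℕ) : ℤ).gcd q = 1 := Int.isCoprime_iff_gcd_eq_one.1 hcop
  have h2g : (2 : ℤ).gcd q = 1 := by
    have h0 : Nat.Coprime 2 q := (Nat.coprime_primes Nat.prime_two hq).2 (Ne.symm hq2)
    have : ((2 : ℕ) : ℤ).gcd q = 1 := by rw [Int.gcd_natCast_natCast]; exact h0
    simpa using this
  have heg : e.gcd q = 1 := by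
    rcases he with rfl | rfl <;> simp
  have hJl : jacobiSym l q ^ 2 = 1 := jacobiSym.sq_one hlg
  have hmod : a ^ 2 % q = (4 * (e * (l : ℤ) ^ h)) % q := by
    obtain ⟨k, hk⟩ := hqD
    rw [← hac, hk]
    have : a ^ 2 - (q : ℤ) * k * c ^ 2 = a ^ 2 + (q : ℤ) * (-(k * c ^ 2)) := by ring
    rw [this, Int.add_mul_emod_self_left]
  have h1 : jacobiSym (a ^ 2) q = jacobiSym (4 * (e * (l : ℤ) ^ h)) q := by
    rw [jacobiSym.mod_left, hmod, ← jacobiSym.mod_left]
  have h4 : jacobiSym 4 q = 1 := by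
    have : (4 : ℤ) = 2 ^ 2 := by norm_num
    rw [this, jacobiSym.sq_one' h2g]
  obtain ⟨m, hm⟩ := hh
  have h5 : jacobiSym ((l : ℤ) ^ h) q = jacobiSym l q := by
    rw [jacobiSym.pow_left, hm, pow_succ, pow_mul, hJl, one_pow, one_mul]
  have h6 : jacobiSym (4 * (e * (l : ℤ) ^ h)) q = jacobiSym e q * jacobiSym l q := by
    rw [jacobiSym.mul_left, h4, one_mul, jacobiSym.mul_left, h5]
  rw [h6] at h1
  have he2 : jacobiSym e q ^ 2 = 1 := jacobiSym.sq_one heg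
  have h7 : jacobiSym (a ^ 2) q = jacobiSym a q ^ 2 := jacobiSym.pow_left _ _ _
  have h8 : (jacobiSym e q * jacobiSym l q) ^ 2 = 1 := by rw [mul_pow, he2, hJl, one_mul]
  have h9 : 0 ≤ jacobiSym e q * jacobiSym l q := by rw [← h1, h7]; positivity
  nlinarith [h8, h9]

variable {K : Type*} [Field K] [NumberField K]

/-- the local obstruction to an odd class number -/
def Bad (D : ℤ) (l : ℕ) : Prop :=
  (∃ q : ℕ, q.Prime ∧ (q : ℤ) ∣ D ∧ q % 4 = 1 ∧ jacobiSym l q = -1) ∨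
  (∃ q₁ q₂ : ℕ, q₁.Prime ∧ q₂.Prime ∧ (q₁ : ℤ) ∣ D ∧ (q₂ : ℤ) ∣ D ∧ q₁ % 4 = 3 ∧ q₂ % 4 = 3 ∧
    jacobiSym l q₁ = -1 ∧ jacobiSym l q₂ = 1)

theorem even_class {D : ℤ} (hD : Squarefree D) (h1 : 1 < D) (hK : finrank ℚ K = 2) {x : K}
    (hx : x ^ 2 = (D : K)) {l : ℕ} (hl : l.Prime) (hl2 : l ≠ 2) (hlD : ¬ (l : ℤ) ∣ D)
    (hJ : jacobiSym D l = 1) (hbad : Bad D l) : Even (classNumber K) := by
  haveI := Fact.mk hl
  by_contra hodd
  rw [Nat.not_even_iff_odd] at hodd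
  have hD0 : ((D : ℤ) : ZMod l) ≠ 0 := by
    rw [Ne, ZMod.intCast_zmod_eq_zero_iff_dvd]; exact hlD
  have hsq : IsSquare ((D : ℤ) : ZMod l) := by
    rw [← legendreSym.eq_one_iff l hD0, jacobiSym.legendreSym.to_jacobiSym]; exact hJ
  obtain ⟨y, hy⟩ := hsq
  have hr : (l : ℤ) ∣ D - (y.val : ℤ) ^ 2 := by
    rw [← ZMod.intCast_zmod_eq_zero_iff_dvd]
    push_cast
    rw [hy, ZMod.natCast_zmod_val]
    ring
  obtain ⟨a, c, e, he, hac⟩ := form_of_odd hD h1 hK hx hl hl2 (y.val : ℤ) hlD hr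
  have hne : ∀ q : ℕ, (q : ℤ) ∣ D → l ≠ q := by
    rintro q hq rfl
    exact hlD hq
  rcases hbad with ⟨q, hq, hqD, hq4, hJq⟩ | ⟨q₁, q₂, hq₁, hq₂, hq₁D, hq₂D, h14, h24, hJ1, hJ2⟩
  · have hq2 : q ≠ 2 := by rintro rfl; norm_num at hq4
    have h := sym_of_form hl hq hq2 (hne q hqD) hqD hodd he hac
    haveI := Fact.mk hq
    have h3 : jacobiSym e q = 1 := by
      rcases he with rfl | rfl
      · exact jacobiSym.one_left _
      · rw [← jacobiSym.legendreSym.to_jacobiSym, legendreSym.at_neg_one hq2,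
          ZMod.χ₄_nat_one_mod_four hq4]
    rw [h3, hJq] at h
    norm_num at h
  · have hq₁2 : q₁ ≠ 2 := by rintro rfl; norm_num at h14
    have hq₂2 : q₂ ≠ 2 := by rintro rfl; norm_num at h24
    have h := sym_of_form hl hq₁ hq₁2 (hne q₁ hq₁D) hq₁D hodd he hac
    have h' := sym_of_form hl hq₂ hq₂2 (hne q₂ hq₂D) hq₂D hodd he hac
    haveI := Fact.mk hq₁
    haveI := Fact.mk hq₂
    rw [hJ1] at h
    rw [hJ2] at h'
    have h3 : jacobiSym e q₁ = jacobiSym e q₂ := by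
      rcases he with rfl | rfl
      · rw [jacobiSym.one_left, jacobiSym.one_left]
      · rw [← jacobiSym.legendreSym.to_jacobiSym, ← jacobiSym.legendreSym.to_jacobiSym,
          legendreSym.at_neg_one hq₁2, legendreSym.at_neg_one hq₂2,
          ZMod.χ₄_nat_three_mod_four h14, ZMod.χ₄_nat_three_mod_four h24]
    rw [h3] at h
    linarith

theorem crt3 {A q p : ℕ} (hA : 0 < A) (hq : q.Prime) (hp : p.Prime) (hqp : q ≠ p)
    (hAq : A.Coprime q) (hAp : A.Coprime p) {e u v : ℕ} (he : e.Coprime A) (hu : u.Coprime q)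
    (hv : v.Coprime p) (B : ℕ) :
    ∃ l : ℕ, l.Prime ∧ B < l ∧ l ≡ e [MOD A] ∧ l ≡ u [MOD q] ∧ l ≡ v [MOD p] := by
  obtain ⟨k, hk1, hk2⟩ := Nat.chineseRemainder hAq e u
  have hc2 : (A * q).Coprime p := Nat.Coprime.mul_left hAp ((Nat.coprime_primes hq hp).2 hqp)
  obtain ⟨m, hm1, hm2⟩ := Nat.chineseRemainder hc2 k v
  have hm3 : m ≡ e [MOD A] := (hm1.of_mul_right q).trans hk1
  have hm4 : m ≡ u [MOD q] := (hm1.of_mul_left A).trans hk2
  have hN0 : A * q * p ≠ 0 := by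
    have := hq.pos; have := hp.pos; positivity
  haveI : NeZero (A * q * p) := ⟨hN0⟩
  have hcopA : m.Coprime A := by
    have h := hm3.gcd_eq
    rw [Nat.Coprime, h]; exact he
  have hcopq : m.Coprime q := by
    have h := hm4.gcd_eq
    rw [Nat.Coprime, h]; exact hu
  have hcopp : m.Coprime p := by
    have h := hm2.gcd_eq
    rw [Nat.Coprime, h]; exact hv
  have hunit : IsUnit ((m : ℕ) : ZMod (A * q * p)) := by
    rw [ZMod.isUnit_iff_coprime]
    exact Nat.Coprime.mul_right (Nat.Coprime.mul_right hcopA hcopq) hcopp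
  obtain ⟨l, hlB, hl, hlm⟩ := Nat.forall_exists_prime_gt_and_eq_mod hunit B
  have hlm' : l ≡ m [MOD A * q * p] := (ZMod.natCast_eq_natCast_iff _ _ _).1 hlm
  have h5 : l ≡ m [MOD A * q] := hlm'.of_mul_right p
  exact ⟨l, hl, hlB, (h5.of_mul_right q).trans hm3, (h5.of_mul_left A).trans hm4,
    (hlm'.of_mul_left (A * q)).trans hm2⟩

theorem exists_nonres {q : ℕ} (hq : q.Prime) (hq2 : q ≠ 2) :
    ∃ u : ℕ, u.Coprime q ∧ jacobiSym u q = -1 := by
  haveI := Fact.mk hq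
  obtain ⟨a, ha⟩ := FiniteField.exists_nonsquare (F := ZMod q) (by rw [ZMod.ringChar_zmod_n]; exact hq2)
  have h1 : ((a.val : ℤ) : ZMod q) = a := by simp
  refine ⟨a.val, ?_, ?_⟩
  · have hne : a ≠ 0 := by rintro rfl; exact ha (by simp)
    have hv : a.val ≠ 0 := by rwa [Ne, ZMod.val_eq_zero]
    rw [Nat.coprime_comm, hq.coprime_iff_not_dvd]
    intro hd
    exact absurd (Nat.le_of_dvd (Nat.pos_of_ne_zero hv) hd) (not_le.2 (ZMod.val_lt a))
  · rw [← jacobiSym.legendreSym.to_jacobiSym, legendreSym.eq_neg_one_iff, h1]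
    exact ha

theorem jac_congr {l u q : ℕ} (h : l ≡ u [MOD q]) : jacobiSym l q = jacobiSym u q := by
  rw [jacobiSym.mod_left, jacobiSym.mod_left (u : ℤ)]
  have : ((l : ℤ)) % q = (u : ℤ) % q := by exact_mod_cast h
  rw [this]

theorem choose_l {d q p m : ℕ} (hdm : d = q * p * m) (hm0 : 0 < m) (hq : q.Prime) (hp : p.Prime)
    (hqp : q ≠ p) (hq2 : q ≠ 2) (hp2 : p ≠ 2) (hmq : m.Coprime q) (hmp : m.Coprime p) :
    ∃ l : ℕ, l.Prime ∧ l ≠ 2 ∧ ¬ l ∣ d ∧ jacobiSym d l = 1 ∧ jacobiSym l q = -1 ∧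
      ∀ r : ℕ, r ∣ m → jacobiSym l r = 1 := by
  obtain ⟨u, hu, hJu⟩ := exists_nonres hq hq2
  obtain ⟨v, hv, hJv⟩ := exists_nonres hp hp2
  have h8q : Nat.Coprime 8 q := by
    rw [Nat.coprime_comm]
    have : Nat.Coprime q 2 := (Nat.coprime_primes hq Nat.prime_two).2 hq2
    exact Nat.Coprime.pow_right 3 this
  have h8p : Nat.Coprime 8 p := by
    rw [Nat.coprime_comm]
    have : Nat.Coprime p 2 := (Nat.coprime_primes hp Nat.prime_two).2 hp2
    exact Nat.Coprime.pow_right 3 this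
  obtain ⟨l, hl, hlB, h1, h2, h3⟩ := crt3 (A := 8 * m) (by omega) hq hp hqp
    (Nat.Coprime.mul_left h8q hmq) (Nat.Coprime.mul_left h8p hmp) (e := 1)
    (Nat.coprime_one_left _) hu hv (d + 2)
  have hl8 : l ≡ 1 [MOD 8] := h1.of_mul_right m
  have hl4 : l % 4 = 1 := by
    have : l % 8 = 1 := by simpa [Nat.ModEq] using hl8
    omega
  have hlodd : Odd l := by rw [Nat.odd_iff]; omega
  have hd0 : 0 < d := by
    rw [hdm]; have := hq.pos; have := hp.pos; positivity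
  have hJq : jacobiSym l q = -1 := by rw [jac_congr h2]; exact hJu
  have hJp : jacobiSym l p = -1 := by rw [jac_congr h3]; exact hJv
  have hJql : jacobiSym q l = -1 := by
    rw [← hJq]
    exact (jacobiSym.quadratic_reciprocity_one_mod_four hl4 (hq.odd_of_ne_two hq2)).symm
  have hJpl : jacobiSym p l = -1 := by
    rw [← hJp]
    exact (jacobiSym.quadratic_reciprocity_one_mod_four hl4 (hp.odd_of_ne_two hp2)).symm
  have hJm : jacobiSym m l = 1 := by
    rw [jacobiSym.mod_right _ hlodd]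
    have h4m : l ≡ 1 [MOD 4 * m] := by
      have : l ≡ 1 [MOD 2 * (4 * m)] := by
        have e : 2 * (4 * m) = 8 * m := by ring
        rw [e]; exact h1
      exact this.of_mul_left 2
    have h5 : l % (4 * ((m : ℕ) : ℤ).natAbs) = 1 := by
      rw [Int.natAbs_natCast]
      have : l % (4 * m) = 1 % (4 * m) := h4m
      rw [this, Nat.mod_eq_of_lt (by omega)]
    rw [h5, jacobiSym.one_right]
  refine ⟨l, hl, by omega, ?_, ?_, hJq, ?_⟩
  · intro h
    have := Nat.le_of_dvd hd0 h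
    omega
  · rw [hdm]
    push_cast
    rw [jacobiSym.mul_left, jacobiSym.mul_left, hJql, hJpl, hJm]
    norm_num
  · intro r hr
    have h6 : l ≡ 1 [MOD r] := (h1.of_mul_left 8).of_dvd hr
    rw [jac_congr h6]
    simp

theorem choose_l2 {q p : ℕ} (hq : q.Prime) (hp : p.Prime)
    (hqp : q ≠ p) (hq2 : q ≠ 2) (hp2 : p ≠ 2) :
    ∃ l : ℕ, l.Prime ∧ l ≠ 2 ∧ ¬ l ∣ 2 * (q * p) ∧ jacobiSym ((2 * (q * p) : ℕ) : ℤ) l = 1 ∧
      jacobiSym l q = -1 ∧ jacobiSym l p = 1 := by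
  obtain ⟨u, hu, hJu⟩ := exists_nonres hq hq2
  have h8q : Nat.Coprime 8 q := by
    rw [Nat.coprime_comm]
    have : Nat.Coprime q 2 := (Nat.coprime_primes hq Nat.prime_two).2 hq2
    exact Nat.Coprime.pow_right 3 this
  have h8p : Nat.Coprime 8 p := by
    rw [Nat.coprime_comm]
    have : Nat.Coprime p 2 := (Nat.coprime_primes hp Nat.prime_two).2 hp2
    exact Nat.Coprime.pow_right 3 this
  obtain ⟨l, hl, hlB, h1, h2, h3⟩ := crt3 (A := 8) (by omega) hq hp hqp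
    h8q h8p (e := 5) (by norm_num) hu (Nat.coprime_one_left p) (2 * (q * p) + 2)
  have hl8 : l % 8 = 5 := by simpa [Nat.ModEq] using h1
  have hl4 : l % 4 = 1 := by omega
  have hlodd : Odd l := by rw [Nat.odd_iff]; omega
  have hJq : jacobiSym l q = -1 := by rw [jac_congr h2]; exact hJu
  have hJp : jacobiSym l p = 1 := by
    rw [jac_congr h3]; simp
  have hJql : jacobiSym q l = -1 := by
    rw [← hJq]
    exact (jacobiSym.quadratic_reciprocity_one_mod_four hl4 (hq.odd_of_ne_two hq2)).symm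
  have hJpl : jacobiSym p l = 1 := by
    rw [← hJp]
    exact (jacobiSym.quadratic_reciprocity_one_mod_four hl4 (hp.odd_of_ne_two hp2)).symm
  have hJ2 : jacobiSym 2 l = -1 := by
    rw [jacobiSym.at_two hlodd, ZMod.χ₈_nat_eq_if_mod_eight]
    have e1 : l % 2 ≠ 0 := by omega
    have e2 : ¬ (l % 8 = 1 ∨ l % 8 = 7) := by omega
    rw [if_neg e1, if_neg e2]
  refine ⟨l, hl, by omega, ?_, ?_, hJq, hJp⟩
  · intro h
    have hpos : 0 < 2 * (q * p) := by have := hq.pos; have := hp.pos; positivity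
    have := Nat.le_of_dvd hpos h
    omega
  · push_cast
    rw [jacobiSym.mul_left, jacobiSym.mul_left, hJql, hJpl, hJ2]
    norm_num

end Pool.Agent.TH877.UF
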