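import Pool.Agent.TH877.UF.Nrm

set_option autoImplicit false

/-! # Prime ideals of prime norm, and odd class number (helper877) -/

namespace Pool.Agent.TH877.UF

open NumberField Module H419R2

variable {K : Type*} [Field K] [NumberField K]

theorem not_dvd_shift {D : ℤ} (hD : Squarefree D) (h1 : 1 < D) {x : K}
    (hx : x ^ 2 = (D : K)) {l : ℕ} (hl : l.Prime) (hl2 : l ≠ 2) (r : ℤ)
    (hr : ¬ (l : ℤ) ∣ r) (xi : 𝓞 K) (hxi : (xi : K) = x) :
    xi - (r : 𝓞 K) ∉ Ideal.span {((l : ℕ) : 𝓞 K)} := by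
  intro hmem
  rw [Ideal.mem_span_singleton] at hmem
  obtain ⟨y, hy⟩ := hmem
  have hl0 : (l : K) ≠ 0 := by exact_mod_cast hl.ne_zero
  have hyK : (y : K) = ((-(r : ℚ) / l : ℚ) : K) + ((1 / l : ℚ) : K) * x := by
    have h2 : x - (r : K) = (l : K) * (y : K) := by
      have h3 := congrArg (algebraMap (𝓞 K) K) hy
      simp only [map_sub, map_mul, map_intCast, map_natCast] at h3
      rw [← hxi]
      exact h3
    push_cast
    field_simp
    linear_combination -h2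
  have hint : IsIntegral ℤ (((-(r : ℚ) / l : ℚ) : K) + ((1 / l : ℚ) : K) * x) := by
    rw [← hyK]; exact y.isIntegral_coe
  have hq : (1 / l : ℚ) ≠ 0 := by
    have : (l : ℚ) ≠ 0 := by exact_mod_cast hl.ne_zero
    positivity
  obtain ⟨⟨a, ha⟩, -⟩ := two_int_of_integral (not_sq_of_squarefree hD h1) hx hq hint
  have h4 : a * l = -(2 * r) := by
    have hlq : (l : ℚ) ≠ 0 := by exact_mod_cast hl.ne_zero
    have h5 : (a : ℚ) * l = -(2 * r) := by
      rw [ha]; field_simp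
    exact_mod_cast h5
  have h6 : (l : ℤ) ∣ 2 * r := ⟨-a, by linarith⟩
  rcases (Nat.prime_iff_prime_int.1 hl).dvd_or_dvd h6 with h | h
  · have : l ∣ 2 := by exact_mod_cast h
    exact hl2 ((Nat.prime_dvd_prime_iff_eq hl Nat.prime_two).1 this)
  · exact hr h

theorem exists_ideal {D : ℤ} (hD : Squarefree D) (h1 : 1 < D) (hK : finrank ℚ K = 2) {x : K}
    (hx : x ^ 2 = (D : K)) {l : ℕ} (hl : l.Prime) (hl2 : l ≠ 2) (r : ℤ)
    (hlD : ¬ (l : ℤ) ∣ D) (hr : (l : ℤ) ∣ D - r ^ 2) :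
    ∃ P : Ideal (𝓞 K), Ideal.absNorm P = l := by
  have hxint : IsIntegral ℤ x := by
    refine ⟨Polynomial.X ^ 2 - Polynomial.C D, Polynomial.monic_X_pow_sub_C _ (by norm_num), ?_⟩
    rw [← Polynomial.aeval_def]
    simp [hx]
  obtain ⟨xi, hxi⟩ : ∃ xi : 𝓞 K, (xi : K) = x := ⟨⟨x, hxint⟩, rfl⟩
  have hrl : ¬ (l : ℤ) ∣ r := by
    intro h
    apply hlD
    have h2 : (l : ℤ) ∣ r ^ 2 := dvd_pow h (by norm_num)
    have := dvd_add hr h2
    simpa using this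
  have hrl' : ¬ (l : ℤ) ∣ -r := by rwa [dvd_neg]
  have hxi2 : xi * xi = (D : 𝓞 K) := by
    apply RingOfIntegers.ext
    have : (xi : K) * (xi : K) = (D : K) := by rw [hxi, ← sq, hx]
    simpa using this
  let I : Ideal (𝓞 K) := Ideal.span {((l : ℕ) : 𝓞 K), xi - (r : 𝓞 K)}
  have hI : I ≠ ⊤ := by
    intro htop
    have h1' : (1 : 𝓞 K) ∈ I := by rw [htop]; trivial
    rw [Ideal.mem_span_pair] at h1'
    obtain ⟨u, v, huv⟩ := h1'
    apply not_dvd_shift hD h1 hx hl hl2 (-r) hrl' xi hxi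
    rw [Ideal.mem_span_singleton]
    obtain ⟨k, hk⟩ := hr
    refine ⟨u * (xi + r) + v * k, ?_⟩
    have hkK : (D : 𝓞 K) - (r : 𝓞 K) ^ 2 = ((l : ℕ) : 𝓞 K) * (k : 𝓞 K) := by
      have := congrArg (fun z : ℤ => (z : 𝓞 K)) hk
      simpa using this
    push_cast
    linear_combination (-(xi + (r : 𝓞 K))) * huv + v * hxi2 + v * hkK
  obtain ⟨P, hP, hIP⟩ := Ideal.exists_le_maximal I hI
  refine ⟨P, ?_⟩
  have hlP : ((l : ℕ) : 𝓞 K) ∈ P := hIP (Ideal.subset_span (by simp))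
  have hxP : xi - (r : 𝓞 K) ∈ P := hIP (Ideal.subset_span (by simp))
  have hfin : finrank ℤ (𝓞 K) = 2 := by rw [RingOfIntegers.rank, hK]
  have hNl : Ideal.absNorm (Ideal.span {((l : ℕ) : 𝓞 K)}) = l ^ 2 := by
    rw [Ideal.absNorm_span_natCast, hfin]
  have hle : Ideal.span {((l : ℕ) : 𝓞 K)} ≤ P := by
    rw [Ideal.span_singleton_le_iff_mem]; exact hlP
  have hdvd : Ideal.absNorm P ∣ l ^ 2 := by
    rw [← hNl]; exact Ideal.absNorm_dvd_absNorm_of_le hle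
  obtain ⟨j, hj, hjP⟩ := (Nat.dvd_prime_pow hl).1 hdvd
  have hj' : j = 0 ∨ j = 1 ∨ j = 2 := by omega
  rcases hj' with rfl | rfl | rfl
  · exfalso
    rw [pow_zero] at hjP
    exact hP.ne_top (Ideal.absNorm_eq_one_iff.1 hjP)
  · rw [hjP, pow_one]
  · exfalso
    have hPd : P ∣ Ideal.span {((l : ℕ) : 𝓞 K)} := Ideal.dvd_iff_le.2 hle
    obtain ⟨J, hJ⟩ := hPd
    have h7 : l ^ 2 = l ^ 2 * Ideal.absNorm J := by
      have := congrArg Ideal.absNorm hJ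
      rw [map_mul, hNl, hjP] at this
      exact this
    have hl0 : 0 < l ^ 2 := by have := hl.pos; positivity
    have h8 : Ideal.absNorm J = 1 := by
      have := Nat.eq_of_mul_eq_mul_left hl0 (by rw [mul_one]; exact h7 : l ^ 2 * 1 = l ^ 2 * Ideal.absNorm J)
      exact this.symm
    have h9 : J = ⊤ := Ideal.absNorm_eq_one_iff.1 h8
    rw [h9, Ideal.mul_top] at hJ
    apply not_dvd_shift hD h1 hx hl hl2 r hrl xi hxi
    rw [hJ]; exact hxP

/-- In an odd class group a prime ideal of norm `l` gives an integral representation. -/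
theorem form_of_odd {D : ℤ} (hD : Squarefree D) (h1 : 1 < D) (hK : finrank ℚ K = 2) {x : K}
    (hx : x ^ 2 = (D : K)) {l : ℕ} (hl : l.Prime) (hl2 : l ≠ 2) (r : ℤ)
    (hlD : ¬ (l : ℤ) ∣ D) (hr : (l : ℤ) ∣ D - r ^ 2) :
    ∃ a c e : ℤ, (e = 1 ∨ e = -1) ∧ a ^ 2 - D * c ^ 2 = 4 * (e * (l : ℤ) ^ (classNumber K)) := by
  obtain ⟨P, hP⟩ := exists_ideal hD h1 hK hx hl hl2 r hlD hr
  have hP0 : P ≠ ⊥ := by
    intro h
    rw [h, Ideal.absNorm_bot] at hP
    exact hl.ne_zero hP.symm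
  have hPm : P ∈ nonZeroDivisors (Ideal (𝓞 K)) := mem_nonZeroDivisors_of_ne_zero hP0
  have h2 : (ClassGroup.mk0 ⟨P, hPm⟩) ^ (Fintype.card (ClassGroup (𝓞 K))) = 1 := pow_card_eq_one
  rw [← map_pow] at h2
  have hPm' : P ^ (Fintype.card (ClassGroup (𝓞 K))) ∈ nonZeroDivisors (Ideal (𝓞 K)) :=
    pow_mem hPm _
  have h3 : (⟨P, hPm⟩ : nonZeroDivisors (Ideal (𝓞 K))) ^ (Fintype.card (ClassGroup (𝓞 K))) =
      ⟨P ^ (Fintype.card (ClassGroup (𝓞 K))), hPm'⟩ := by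
    ext1; simp
  rw [h3, ClassGroup.mk0_eq_one_iff] at h2
  obtain ⟨α, hα⟩ := h2.principal
  rw [Ideal.submodule_span_eq] at hα
  have h4 : ((Algebra.norm ℤ) α).natAbs = l ^ (classNumber K) := by
    rw [← Ideal.absNorm_span_singleton, ← hα, map_pow, hP]
    rfl
  obtain ⟨a, c, hac⟩ := norm_form hD h1 hK hx α
  rcases Int.natAbs_eq ((Algebra.norm ℤ) α) with h5 | h5
  · refine ⟨a, c, 1, Or.inl rfl, ?_⟩
    rw [hac, h5, h4]; push_cast; ring
  · refine ⟨a, c, -1, Or.inr rfl, ?_⟩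
    rw [hac, h5, h4]; push_cast; ring

end Pool.Agent.TH877.UF
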