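import Pool.Agent.H419R2.A1

set_option autoImplicit false

/-! # Norm forms of quadratic fields (helper877) -/

namespace Pool.Agent.TH877.UF

open NumberField Module H419R2

variable {K : Type*} [Field K] [NumberField K]

theorem norm_coords {D : ℤ} (hD : ¬ ∃ q : ℚ, q ^ 2 = D) (hK : finrank ℚ K = 2) {x : K}
    (hx : x ^ 2 = (D : K)) (p q : ℚ) :
    Algebra.norm ℚ ((p : K) + (q : K) * x) = p ^ 2 - D * q ^ 2 := by
  have hli : LinearIndependent ℚ ![(1 : K), x] := by
    rw [LinearIndependent.pair_iff]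
    intro s t hst
    by_cases ht : t = 0
    · subst ht
      simp at hst
      exact ⟨hst, rfl⟩
    · exfalso
      apply hD
      refine ⟨-s / t, ?_⟩
      have ht' : (t : K) ≠ 0 := by exact_mod_cast ht
      have hxe : x = ((-s / t : ℚ) : K) := by
        push_cast
        rw [eq_div_iff ht']
        have : (s : K) + (t : K) * x = 0 := by
          simpa [Algebra.smul_def] using hst
        linear_combination this
      have h2 : (((-s / t) ^ 2 : ℚ) : K) = ((D : ℚ) : K) := by
        push_cast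
        rw [hxe] at hx
        push_cast at hx
        exact hx
      exact_mod_cast h2
  let b : Basis (Fin 2) ℚ K := basisOfLinearIndependentOfCardEqFinrank hli (by simp [hK])
  have hb0 : b 0 = 1 := by simp [b]
  have hb1 : b 1 = x := by simp [b]
  rw [Algebra.norm_eq_matrix_det b]
  have hM : Algebra.leftMulMatrix b ((p : K) + (q : K) * x) = !![p, q * D; q, p] := by
    ext i j
    rw [Algebra.leftMulMatrix_eq_repr_mul]
    have e0 : ((p : K) + (q : K) * x) * b 0 = p • b 0 + q • b 1 := by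
      rw [hb0, hb1]; simp [Algebra.smul_def]
    have e1 : ((p : K) + (q : K) * x) * b 1 = (q * D) • b 0 + p • b 1 := by
      rw [hb0, hb1]; simp [Algebra.smul_def]
      linear_combination (q : K) * hx
    fin_cases j
    · simp only [Fin.zero_eta, Fin.isValue]
      rw [e0]
      fin_cases i <;> simp [Finsupp.single_apply]
    · simp only [Fin.mk_one, Fin.isValue]
      rw [e1]
      fin_cases i <;> simp [Finsupp.single_apply]
  rw [hM, Matrix.det_fin_two]
  simp
  ring

theorem norm_form {D : ℤ} (hD : Squarefree D) (h1 : 1 < D) (hK : finrank ℚ K = 2) {x : K}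
    (hx : x ^ 2 = (D : K)) (α : 𝓞 K) :
    ∃ a c : ℤ, a ^ 2 - D * c ^ 2 = 4 * Algebra.norm ℤ α := by
  have hns := not_sq_of_squarefree hD h1
  obtain ⟨p, q, hpq⟩ := exists_coords hns hK hx (α : K)
  have hnorm : ((Algebra.norm ℤ α : ℤ) : ℚ) = p ^ 2 - D * q ^ 2 := by
    rw [Algebra.coe_norm_int, hpq, norm_coords hns hK hx]
  have hint : IsIntegral ℤ ((p : K) + (q : K) * x) := by
    rw [← hpq]; exact α.isIntegral_coe
  by_cases hq : q = 0
  · subst hq
    have hp : IsIntegral ℤ p := by
      have h2 : IsIntegral ℤ (algebraMap ℚ K p) := by simpa using hint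
      exact (isIntegral_algebraMap_iff (algebraMap ℚ K).injective).1 h2
    obtain ⟨n, hn⟩ := IsIntegrallyClosed.isIntegral_iff.mp hp
    have hn' : (n : ℚ) = p := by simpa using hn
    refine ⟨2 * n, 0, ?_⟩
    have : ((2 * n : ℤ) : ℚ) ^ 2 - (D : ℚ) * ((0 : ℤ) : ℚ) ^ 2 = 4 * ((Algebra.norm ℤ α : ℤ) : ℚ) := by
      rw [hnorm]; push_cast; rw [hn']; ring
    exact_mod_cast this
  · obtain ⟨⟨a, ha⟩, b, hb⟩ := two_int_of_integral hns hx hq hint
    have h3 : (D : ℚ) * (2 * q) ^ 2 = ((a ^ 2 - 4 * b : ℤ) : ℚ) := by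
      push_cast
      rw [ha, hb]; ring
    obtain ⟨c, hc⟩ := int_of_squarefree_mul_sq hD h3
    refine ⟨a, c, ?_⟩
    have : ((a : ℚ)) ^ 2 - (D : ℚ) * ((c : ℚ)) ^ 2 = 4 * ((Algebra.norm ℤ α : ℤ) : ℚ) := by
      rw [hnorm, ha, hc]; ring
    exact_mod_cast this

end Pool.Agent.TH877.UF
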